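import Pool.Agent.MP_ea150c_mp.H16.FSpec

/-! Translation of the cohomological hypotheses of a frame to the abstract complex. -/

namespace Pool.Agent.MP_ea150c_mp.H56

open Pool.Agent.MP_ea150c_mp.H49 Pool.Agent.MP_ea150c_mp.H16

noncomputable section

section Gen
variable {O E : Type} [CommRing O] [AddCommGroup E] [Module O E]

theorem mem_sm {c : O} {M : Submodule O E} {x : E} : x ∈ sm c M ↔ ∃ y ∈ M, c • y = x := by
  simp [sm, Submodule.mem_map]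

/-- `W` is the trace of `V` on `U`. -/
def Tr (U : Submodule O E) (W : Submodule O U) (V : Submodule O E) : Prop :=
  V ≤ U ∧ ∀ x, x ∈ W ↔ x.1 ∈ V

theorem Tr.smul {U : Submodule O E} {W : Submodule O U} {V : Submodule O E} (h : Tr U W V)
    (c : O) : Tr U (sm c W) (sm c V) := by
  refine ⟨fun x hx => ?_, fun x => ⟨fun hx => ?_, fun hx => ?_⟩⟩
  · obtain ⟨y, hy, rfl⟩ := mem_sm.1 hx
    exact U.smul_mem c (h.1 hy)
  · obtain ⟨y, hy, rfl⟩ := mem_sm.1 hx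
    exact mem_sm.2 ⟨y.1, (h.2 y).1 hy, rfl⟩
  · obtain ⟨y, hy, e⟩ := mem_sm.1 hx
    exact mem_sm.2 ⟨⟨y, h.1 hy⟩, (h.2 _).2 hy, Subtype.ext e⟩

theorem Tr.sup {U : Submodule O E} {W W' : Submodule O U} {V V' : Submodule O E} (h : Tr U W V)
    (h' : Tr U W' V') : Tr U (W ⊔ W') (V ⊔ V') := by
  refine ⟨sup_le h.1 h'.1, fun x => ⟨fun hx => ?_, fun hx => ?_⟩⟩
  · obtain ⟨y, hy, z, hz, rfl⟩ := Submodule.mem_sup.1 hx
    exact Submodule.mem_sup.2 ⟨y.1, (h.2 y).1 hy, z.1, (h'.2 z).1 hz, rfl⟩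
  · obtain ⟨y, hy, z, hz, e⟩ := Submodule.mem_sup.1 hx
    exact Submodule.mem_sup.2
      ⟨⟨y, h.1 hy⟩, (h.2 _).2 hy, ⟨z, h'.1 hz⟩, (h'.2 _).2 hz, Subtype.ext e⟩

theorem tr_top (U : Submodule O E) : Tr U ⊤ U :=
  ⟨le_rfl, fun x => ⟨fun _ => x.2, fun _ => Submodule.mem_top⟩⟩

theorem Tr.finrank {U : Submodule O E} {W : Submodule O U} {V : Submodule O E} (h : Tr U W V) :
    Module.finrank O W = Module.finrank O V := by
  have e : W = V.comap U.subtype := by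
    ext x
    exact h.2 x
  rw [e]
  exact (Submodule.comapSubtypeEquivOfLe h.1).finrank_eq

variable {I : Type}

theorem coch_mono {M N : Finset I → Submodule O E} (h : ∀ J, M J ≤ N J) : Coch M ≤ Coch N :=
  fun _ hx => ⟨hx.1, fun J => h J (hx.2 J)⟩

theorem sign_three (x : Finset I → E) (hx : ∀ J : Finset I, J.card ≠ 3 → x J = 0) (J : Finset I) :
    ((-1 : O) ^ (J.card + 1)) • x J = x J := by
  by_cases h : J.card = 3
  · rw [h]; norm_num
  · rw [hx J h, smul_zero]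

theorem zero_of_neg (h2 : IsUnit (2 : O)) {y : E} (h : y = -y) : y = 0 := by
  have h3 : (2 : O) • y = 0 := by
    rw [two_smul]
    nth_rewrite 1 [h]
    exact neg_add_cancel y
  exact (h2.smul_eq_zero).1 h3

theorem sm_pow_le (c : O) (M : Submodule O E) {a b : ℕ} (h : a ≤ b) :
    sm (c ^ b) M ≤ sm (c ^ a) M := by
  intro x hx
  obtain ⟨y, hy, rfl⟩ := mem_sm.1 hx
  refine mem_sm.2 ⟨c ^ (b - a) • y, M.smul_mem _ hy, ?_⟩
  rw [smul_smul, ← pow_add, Nat.add_sub_cancel' h]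

end Gen

theorem two_unit (p : ℕ) [hp : Fact p.Prime] (h : 3 ≤ p) : IsUnit (2 : ℤ_[p]) := by
  rw [PadicInt.isUnit_iff]
  by_contra hne
  have h1 : ‖((2 : ℤ) : ℤ_[p])‖ < 1 := by
    have := PadicInt.norm_le_one (2 : ℤ_[p])
    simpa using lt_of_le_of_ne this hne
  rw [PadicInt.norm_int_lt_one_iff_dvd] at h1
  have h2 : (p : ℤ) ≤ 2 := Int.le_of_dvd (by norm_num) h1
  omega

theorem transR : TransR := by
  intro p _ A B Γ I ι σ _ _ _ _ _ _ _ _ _ _ _ _ _ _ F hp hL _ f1 _ _ _ M C hM R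
  have h2 := two_unit p hp
  have t0 : Tr (F.CB M) C.B0 (F.CB 0) :=
    ⟨coch_mono fun J => hL.lev J 0 0 M (Nat.zero_le M), R.B0⟩
  have t1 : Tr (F.CB M) C.B1 (F.CB 1) := ⟨coch_mono fun J => hL.lev J 0 1 M hM, R.B1⟩
  have tL : Tr (CLt F M) C.L1 F.CL := by
    refine ⟨coch_mono fun J => ?_, R.L1⟩
    refine Submodule.prod_mono (f1.1 J J 0 1 M le_rfl hM) ?_
    intro y hy i hi
    have h3 := hy i hi
    have hM0 : M ≠ 0 := by omega
    simp only [one_ne_zero, if_false, hM0] at h3 ⊢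
    exact hL.lev J 0 _ _ (by omega) h3
  have t01 := t0.sup (t1.smul (p : ℤ_[p]))
  have hbd : ∀ z, (C.bd z).1 = fun J => F.dLt (z.1 J) := fun z => funext (R.bd z)
  refine ⟨?_, ?_, ?_, ?_, t1.finrank, tL.finrank⟩
  · rintro e ⟨he0, he3, he⟩
    refine ⟨⟨e, t0.1 he0⟩, rfl, (R.B0 _).2 he0, ?_, ?_⟩
    · apply Subtype.ext
      funext J
      rw [R.sB]
      exact sign_three e he3 J
    · intro x hx hd
      have hd' := ((t0.smul (p : ℤ_[p])).2 _).1 hd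
      rw [R.dB] at hd'
      obtain ⟨c, z, hz, hh⟩ := he x.1 ((R.B0 x).1 hx) hd'
      refine ⟨c, ⟨z, t0.1 hz⟩, (R.B0 _).2 hz, ((t0.smul (p : ℤ_[p])).2 _).2 ?_⟩
      rw [Submodule.coe_sub, Submodule.coe_sub, R.dB]
      exact hh
  · intro h x hx hs hd
    have hd' := ((tL.smul (p : ℤ_[p])).2 _).1 hd
    rw [R.dL] at hd'
    have hodd : ∀ J : Finset I, Odd J.card → x.1 J = 0 := by
      intro J hJ
      have e1 := R.sL x J
      rw [hs, (hJ.add_one).neg_one_pow, one_smul] at e1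
      exact zero_of_neg h2 e1.symm
    obtain ⟨z, hz, hh⟩ := h x.1 ((R.L1 x).1 hx) hodd hd'
    refine ⟨⟨z, tL.1 hz⟩, (R.L1 _).2 hz, ((tL.smul (p : ℤ_[p])).2 _).2 ?_⟩
    rw [Submodule.coe_sub, R.dL]
    exact hh
  · rintro 𝒳 ⟨ha, hb⟩
    refine ⟨fun v hv => ?_, fun w hw hs hd => ?_⟩
    · obtain ⟨h1, h3, h4⟩ := ha v.1 hv
      refine ⟨(R.B1 v).2 h1, ?_, ?_⟩
      · apply Subtype.ext
        funext J
        rw [R.sB]
        exact sign_three v.1 h3 J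
      · apply Subtype.ext
        rw [R.dB]
        exact h4
    · have hd' := (t01.2 _).1 hd
      rw [R.dB] at hd'
      have hev : ∀ J : Finset I, Even J.card → w.1 J = 0 := by
        intro J hJ
        have e1 := R.sB w J
        rw [hs, (hJ.add_one).neg_one_pow, neg_smul, one_smul] at e1
        exact zero_of_neg h2 e1
      obtain ⟨v, hv, β, hβ, hh⟩ := hb w.1 ((R.B1 w).1 hw) hev hd'
      refine ⟨⟨v, t1.1 (ha v hv).1⟩, hv, ⟨β, t1.1 hβ⟩, (R.B1 _).2 hβ, (t01.2 _).2 ?_⟩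
      rw [Submodule.coe_sub, Submodule.coe_sub, R.dB]
      exact hh
  · intro 𝒳 S' G hS hA h x hx w hw hΦ ζ hζ β hβ v hv hh
    have hΦ' := ((t0.sup ((tr_top (F.CB M)).smul ((p : ℤ_[p]) ^ 2))).2 _).1 hΦ
    have hh' := (t01.2 _).1 hh
    rw [Submodule.coe_sub, Submodule.coe_sub, Submodule.coe_sub, R.dB, hbd] at hh'
    have hJ : ∀ J (hJ : J.Nonempty), F.Ψ (J.min' hJ) (x.1 J) - (p : ℤ_[p]) • w.1 J ∈
        F.Bl J 0 0 ⊔ sm ((p : ℤ_[p]) ^ 2) (F.Bh J 0) := by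
      intro J hJ
      obtain ⟨y, hy, z, hz, e⟩ := Submodule.mem_sup.1 hΦ'
      obtain ⟨u, hu, rfl⟩ := mem_sm.1 hz
      have e1 : y J + (p : ℤ_[p]) ^ 2 • u J = (G.ΦB x).1 J - (p : ℤ_[p]) • w.1 J :=
        congrFun e J
      have e2 := sm_pow_le (p : ℤ_[p]) (F.Bh J 0) hS (hA.aB x J)
      have e3 : mn J = J.min' hJ := dif_pos hJ
      rw [e3] at e2
      have e4 : F.Ψ (J.min' hJ) (x.1 J) - (p : ℤ_[p]) • w.1 J =
          y J + ((p : ℤ_[p]) ^ 2 • u J - ((G.ΦB x).1 J - F.Ψ (J.min' hJ) (x.1 J))) := by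
        rw [← add_sub_assoc, e1]; abel
      rw [e4]
      exact Submodule.add_mem_sup (hy.2 J)
        (Submodule.sub_mem _ (mem_sm.2 ⟨u J, hL.le J 0 M (hu.2 J), rfl⟩) e2)
    obtain ⟨ζ', hζ', h3, h4, h5⟩ := h x.1 hx w.1 ((R.B1 w).1 hw) hJ ζ.1 ((R.L1 ζ).1 hζ) β.1
      ((R.B1 β).1 hβ) v.1 hv hh'
    refine ⟨⟨ζ', tL.1 hζ'⟩, (R.L1 _).2 hζ', ?_, ?_, (t01.2 _).2 ?_⟩
    · apply Subtype.ext
      funext J
      rw [R.sL]
      exact sign_three ζ' h3 J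
    · apply Subtype.ext
      rw [R.dL]
      exact h4
    · rw [Submodule.coe_sub, hbd]
      exact h5

end

end Pool.Agent.MP_ea150c_mp.H56
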